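import Pool.Agent.Helper78_OMI.Par

/-!
# The bound for the number of odd points
-/

set_option autoImplicit false

open scoped BigOperators

namespace Pool.Agent.OMI

/-- The lift of a point. -/
def hat (x : P2) : V := (x.1, x.2, 1)

theorem hat_inj {x y : P2} (h : hat x = hat y) : x = y := by
  have h1 : x.1 = y.1 := congrArg (fun v : V => v.1) h
  have h2 : x.2 = y.2 := congrArg (fun v : V => v.2.1) h
  exact Prod.ext h1 h2

/-- The two lifts of the points of a set. -/
noncomputable def lift (X : Finset P2) : Finset V := X.image hat ∪ X.image fun x => - hat x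

theorem mem_lift {X : Finset P2} {y : V} :
    y ∈ lift X ↔ (∃ x ∈ X, hat x = y) ∨ (∃ x ∈ X, - hat x = y) := by
  unfold lift
  rw [Finset.mem_union, Finset.mem_image, Finset.mem_image]

theorem lift_card (X : Finset P2) : (lift X).card = 2 * X.card := by
  unfold lift
  rw [Finset.card_union_of_disjoint, Finset.card_image_of_injective, Finset.card_image_of_injective]
  · ring
  · intro x y h
    exact hat_inj (neg_injective h)
  · exact fun x y h => hat_inj h
  · rw [Finset.disjoint_left]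
    intro y h1 h2
    obtain ⟨x, -, rfl⟩ := Finset.mem_image.mp h1
    obtain ⟨z, -, hz⟩ := Finset.mem_image.mp h2
    have : (-1 : ℝ) = 1 := congrArg (fun v : V => v.2.2) hz
    norm_num at this

theorem lift_mono {O X : Finset P2} (h : O ⊆ X) : lift O ⊆ lift X := by
  intro y hy
  rw [mem_lift] at hy ⊢
  rcases hy with ⟨x, hx, rfl⟩ | ⟨x, hx, rfl⟩
  · exact Or.inl ⟨x, h hx, rfl⟩
  · exact Or.inr ⟨x, h hx, rfl⟩

theorem lift_neg {X : Finset P2} {y : V} (hy : y ∈ lift X) : -y ∈ lift X := by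
  rw [mem_lift] at hy ⊢
  rcases hy with ⟨x, hx, rfl⟩ | ⟨x, hx, rfl⟩
  · exact Or.inr ⟨x, hx, rfl⟩
  · exact Or.inl ⟨x, hx, by rw [neg_neg]⟩

theorem lift_zero (X : Finset P2) : (0 : V) ∉ lift X := by
  intro h
  rw [mem_lift] at h
  rcases h with ⟨x, -, h⟩ | ⟨x, -, h⟩
  · have : (1 : ℝ) = 0 := congrArg (fun v : V => v.2.2) h
    norm_num at this
  · have : (-1 : ℝ) = 0 := congrArg (fun v : V => v.2.2) h
    norm_num at this

theorem lift_red (X : Finset P2) : Red (lift X) := by
  intro y hy z hz c hc h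
  have h3 : z.2.2 = c * y.2.2 := congrArg (fun v : V => v.2.2) h
  have hc1 : c = 1 := by
    rw [mem_lift] at hy hz
    rcases hy with ⟨x, -, rfl⟩ | ⟨x, -, rfl⟩ <;> rcases hz with ⟨w, -, rfl⟩ | ⟨w, -, rfl⟩ <;>
      simp [hat] at h3 <;> linarith
  rw [h, hc1, one_smul]

open Classical in
/-- The parity of a point. -/
noncomputable def par (X : Finset P2) (a : P2) : Bool := decide (Even (PP X a (1, 0)).card)

open Classical in
/-- The colour of a vector. -/
noncomputable def kap (X : Finset P2) (v : V) : Bool :=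
  if 0 < v.2.2 then par X (v.1, v.2.1) else !(par X (-v.1, -v.2.1))

theorem kap_hat (X : Finset P2) (a : P2) : kap X (hat a) = par X a := by
  unfold kap hat
  simp

theorem kap_neg (X : Finset P2) (a : P2) : kap X (- hat a) = !(par X a) := by
  unfold kap hat
  have h : ¬ (0 : ℝ) < (-(a.1, a.2, (1 : ℝ)) : V).2.2 := by
    simp
  rw [if_neg h]
  simp

theorem par_bt {X : Finset P2} {a b : P2} (ha : Odp X a) (hb : Odp X b) (hab : a ≠ b) :
    par X a = par X b ↔ Odd (Bt X a b).card := by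
  classical
  have hd : b - a ≠ 0 := sub_ne_zero.mpr hab.symm
  have h10 : ((1, 0) : P2) ≠ 0 := by
    intro h
    have : (1 : ℝ) = 0 := congrArg Prod.fst h
    norm_num at this
  have e1 := par_indep ha h10 hd
  have e2 := par_indep hb h10 hd
  have e3 := PP_two ha.1 hb.1 hab
  unfold par
  rw [decide_eq_decide, e1, e2, e3]
  rw [Nat.even_add, Nat.even_add]
  simp only [Nat.not_even_one, iff_false]
  rw [← Nat.not_even_iff_odd]
  tauto

/-- `x` on the line `a b` -/
theorem on_line {a b x : P2} (hab : a ≠ b) (h : C3 a b x) :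
    ∃ t : ℝ, hat x = (1 - t) • hat a + t • hat b ∧
      dp a (b - a) x = t * ((b.1 - a.1) ^ 2 + (b.2 - a.2) ^ 2) ∧
      dp b (b - a) x = (t - 1) * ((b.1 - a.1) ^ 2 + (b.2 - a.2) ^ 2) := by
  obtain ⟨t, h1, h2⟩ := C3_smul hab.symm h
  refine ⟨t, ?_, ?_, ?_⟩
  · unfold hat
    refine Prod.ext ?_ (Prod.ext ?_ ?_)
    · simp only [Prod.smul_mk, Prod.mk_add_mk, smul_eq_mul]
      linarith
    · simp only [Prod.smul_mk, Prod.mk_add_mk, smul_eq_mul]
      linarith
    · simp only [Prod.smul_mk, Prod.mk_add_mk, smul_eq_mul]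
      ring
  · unfold dp
    simp only [Prod.fst_sub, Prod.snd_sub]
    rw [h1, h2]
    ring
  · unfold dp
    simp only [Prod.fst_sub, Prod.snd_sub]
    have e1 : x.1 - b.1 = (t - 1) * (b.1 - a.1) := by linarith
    have e2 : x.2 - b.2 = (t - 1) * (b.2 - a.2) := by linarith
    rw [e1, e2]
    ring

theorem normsq_pos {a b : P2} (hab : a ≠ b) : 0 < (b.1 - a.1) ^ 2 + (b.2 - a.2) ^ 2 := by
  rcases eq_or_ne (b.1 - a.1) 0 with h | h
  · have : b.2 - a.2 ≠ 0 := fun h' => hab (Prod.ext (by linarith) (by linarith))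
    positivity
  · positivity

theorem mem_Bt {X : Finset P2} {a b x : P2} (hab : a ≠ b) :
    x ∈ Bt X a b → x ∈ X ∧ C3 a b x ∧ ∃ s t : ℝ, 0 < s ∧ 0 < t ∧ hat x = s • hat a + t • hat b := by
  intro hx
  unfold Bt at hx
  rw [Finset.mem_filter] at hx
  obtain ⟨hxX, h1, h2, h3⟩ := hx
  have hc : C3 a b x := by
    unfold C3
    unfold cr at h1
    simp only [Prod.fst_sub, Prod.snd_sub] at h1
    exact h1
  obtain ⟨t, e1, e2, e3⟩ := on_line hab hc
  have hs := normsq_pos hab
  rw [e2] at h2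
  rw [e3] at h3
  refine ⟨hxX, hc, 1 - t, t, ?_, ?_, e1⟩
  · by_contra hneg
    have : 0 ≤ t - 1 := by linarith
    have := mul_nonneg this hs.le
    linarith
  · by_contra hneg
    have : t ≤ 0 := by linarith
    have := mul_nonneg (neg_nonneg.mpr this) hs.le
    linarith

/-- If there is an even number of points between, then there is a point outside. -/
theorem ex_outside {X : Finset P2} {a b : P2} (ha : Odp X a) (hb : b ∈ X) (hab : a ≠ b)
    (he : Even (Bt X a b).card) : ∃ x ∈ X, ∃ s t : ℝ, 0 < s ∧ 0 < t ∧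
      (hat x = s • hat a + t • (- hat b) ∨ - hat x = s • hat a + t • (- hat b)) := by
  classical
  have h1 := ha.2 b hb hab.symm
  set L := (X.erase a).filter fun y => C3 a b y with hL
  have hsub : insert b (Bt X a b) ⊆ L := by
    intro y hy
    rw [Finset.mem_insert] at hy
    rw [hL, Finset.mem_filter, Finset.mem_erase]
    rcases hy with rfl | hy
    · exact ⟨⟨hab.symm, hb⟩, C3_refl a y⟩
    · obtain ⟨h2, h3, -⟩ := mem_Bt hab hy
      refine ⟨⟨?_, h2⟩, h3⟩
      rintro rfl
      unfold Bt at hy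
      rw [Finset.mem_filter] at hy
      have := hy.2.2.1
      unfold dp at this
      simp at this
  have hbn : b ∉ Bt X a b := by
    intro h
    unfold Bt at h
    rw [Finset.mem_filter] at h
    have := h.2.2.2
    unfold dp at this
    simp at this
  have hcard : (insert b (Bt X a b)).card = (Bt X a b).card + 1 := Finset.card_insert_of_notMem hbn
  have hne : insert b (Bt X a b) ≠ L := by
    intro h
    rw [← h, hcard, Nat.even_add_one] at h1
    exact h1 he
  obtain ⟨x, hxL, hxn⟩ := Finset.exists_of_ssubset (Finset.ssubset_iff_subset_ne.mpr ⟨hsub, hne⟩)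
  rw [hL, Finset.mem_filter, Finset.mem_erase] at hxL
  obtain ⟨⟨hxa, hxX⟩, hxc⟩ := hxL
  rw [Finset.mem_insert, not_or] at hxn
  obtain ⟨hxb, hxB⟩ := hxn
  obtain ⟨t, e1, e2, e3⟩ := on_line hab hxc
  have hs := normsq_pos hab
  have ht0 : t ≠ 0 := by
    rintro rfl
    apply hxa
    apply hat_inj
    rw [e1]
    simp
  have ht1 : t ≠ 1 := by
    rintro rfl
    apply hxb
    apply hat_inj
    rw [e1]
    simp
  have hcr : cr a (b - a) x = 0 := by
    unfold C3 at hxc
    unfold cr
    simp only [Prod.fst_sub, Prod.snd_sub]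
    exact hxc
  have hout : t < 0 ∨ 1 < t := by
    by_contra hcon
    push Not at hcon
    have h0 : 0 < t := lt_of_le_of_ne hcon.1 ht0.symm
    have h1' : t < 1 := lt_of_le_of_ne hcon.2 ht1
    apply hxB
    unfold Bt
    rw [Finset.mem_filter]
    refine ⟨hxX, hcr, ?_, ?_⟩
    · rw [e2]
      exact mul_pos h0 hs
    · rw [e3]
      exact mul_neg_of_neg_of_pos (by linarith) hs
  rcases hout with h | h
  · refine ⟨x, hxX, 1 - t, -t, by linarith, by linarith, Or.inl ?_⟩
    rw [e1, smul_neg, neg_smul, neg_neg]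
  · refine ⟨x, hxX, t - 1, t, by linarith, by linarith, Or.inr ?_⟩
    rw [e1, smul_neg, neg_add, ← neg_smul, neg_sub]

theorem InC_neg {u v y : V} (h : InC u v y) : InC (-u) (-v) (-y) := by
  obtain ⟨s, t, hs, ht, rfl⟩ := h
  refine ⟨s, t, hs, ht, ?_⟩
  rw [smul_neg, smul_neg, neg_add]

theorem InC_comm {u v y : V} (h : InC u v y) : InC v u y := by
  obtain ⟨s, t, hs, ht, rfl⟩ := h
  exact ⟨t, s, ht, hs, add_comm _ _⟩

theorem col_main (X O : Finset P2) (hO : ∀ a ∈ O, Odp X a) :
    Col (lift X) (lift O) (kap X) := by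
  intro u hu v hv huv hk
  -- reduce to `u = hat a`
  have hat_ne : ∀ a b : P2, ∀ s s' : ℝ, (∃ z, dt (s • hat a) (s' • hat b) z ≠ 0) → a ≠ b := by
    rintro a b s s' ⟨z, hz⟩ rfl
    apply hz
    unfold dt hat
    simp only [Prod.smul_mk, smul_eq_mul]
    ring
  have same : ∀ a ∈ O, ∀ b ∈ O, a ≠ b → par X a = par X b → ∃ y ∈ lift X, InC (hat a) (hat b) y := by
    intro a ha b hb hab hp
    have hodd := (par_bt (hO a ha) (hO b hb) hab).mp hp
    obtain ⟨x, hx⟩ : (Bt X a b).Nonempty := by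
      rw [← Finset.card_pos]
      exact hodd.pos
    obtain ⟨hxX, -, s, t, hs, ht, h⟩ := mem_Bt hab hx
    exact ⟨hat x, mem_lift.mpr (Or.inl ⟨x, hxX, rfl⟩), s, t, hs, ht, h⟩
  have diff : ∀ a ∈ O, ∀ b ∈ O, a ≠ b → par X a ≠ par X b →
      ∃ y ∈ lift X, InC (hat a) (- hat b) y := by
    intro a ha b hb hab hp
    have hev : Even (Bt X a b).card := by
      rw [← Nat.not_odd_iff_even]
      exact fun h => hp ((par_bt (hO a ha) (hO b hb) hab).mpr h)
    obtain ⟨x, hxX, s, t, hs, ht, h⟩ := ex_outside (hO a ha) (hO b hb).1 hab hev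
    rcases h with h | h
    · exact ⟨hat x, mem_lift.mpr (Or.inl ⟨x, hxX, rfl⟩), s, t, hs, ht, h⟩
    · exact ⟨-hat x, mem_lift.mpr (Or.inr ⟨x, hxX, rfl⟩), s, t, hs, ht, h⟩
  rw [mem_lift] at hu hv
  rcases hu with ⟨a, ha, rfl⟩ | ⟨a, ha, rfl⟩ <;> rcases hv with ⟨b, hb, rfl⟩ | ⟨b, hb, rfl⟩
  · have hab : a ≠ b := hat_ne a b 1 1 (by simpa using huv)
    rw [kap_hat, kap_hat] at hk
    exact same a ha b hb hab hk
  · have hab : a ≠ b := hat_ne a b 1 (-1) (by simpa using huv)
    rw [kap_hat, kap_neg] at hk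
    refine diff a ha b hb hab ?_
    rw [hk]
    cases par X b <;> decide
  · have hab : a ≠ b := hat_ne a b (-1) 1 (by simpa using huv)
    rw [kap_hat, kap_neg] at hk
    have hp : par X a ≠ par X b := by
      rw [← hk]
      cases par X a <;> decide
    obtain ⟨y, hy, hc⟩ := diff a ha b hb hab hp
    refine ⟨-y, lift_neg hy, ?_⟩
    have := InC_neg hc
    rwa [neg_neg] at this
  · have hab : a ≠ b := hat_ne a b (-1) (-1) (by simpa using huv)
    rw [kap_neg, kap_neg] at hk
    have hp : par X a = par X b := by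
      cases h1 : par X a <;> cases h2 : par X b <;> rw [h1, h2] at hk <;> simp_all
    obtain ⟨y, hy, hc⟩ := same a ha b hb hab hp
    exact ⟨-y, lift_neg hy, InC_neg hc⟩

theorem dt_hat (a b c : P2) : dt (hat a) (hat b) (hat c) =
    (b.1 - a.1) * (c.2 - a.2) - (b.2 - a.2) * (c.1 - a.1) := by
  unfold dt hat
  ring

/-- The case in which the odd points are not collinear. -/
theorem main_nc (X O : Finset P2) (hO : ∀ a ∈ O, Odp X a) {a b c : P2} (ha : a ∈ O) (hb : b ∈ O)
    (hc : c ∈ O) (habc : ¬ C3 a b c) : 2 * O.card ≤ X.card + 1 := by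
  have hsub : O ⊆ X := fun x hx => (hO x hx).1
  have hD : dt (hat a) (hat b) (hat c) ≠ 0 := by
    rw [dt_hat]
    exact habc
  have h := oct (lift_red X) (lift_mono hsub) (col_main X O hO) (fun y hy => lift_neg hy)
    (lift_zero O) (mem_lift.mpr (Or.inl ⟨a, ha, rfl⟩)) (mem_lift.mpr (Or.inl ⟨b, hb, rfl⟩))
    (mem_lift.mpr (Or.inl ⟨c, hc, rfl⟩)) hD
  rw [lift_card, lift_card] at h
  omega

/-- Three points of a line are collinear. -/
theorem C3_of {p q u v w : P2} (hpq : p ≠ q) (hu : C3 p q u) (hv : C3 p q v) (hw : C3 p q w) :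
    C3 u v w := by
  obtain ⟨a, a1, a2⟩ := C3_smul hpq.symm hu
  obtain ⟨b, b1, b2⟩ := C3_smul hpq.symm hv
  obtain ⟨c, c1, c2⟩ := C3_smul hpq.symm hw
  have e1 : v.1 - u.1 = (b - a) * (q.1 - p.1) := by linarith
  have e2 : v.2 - u.2 = (b - a) * (q.2 - p.2) := by linarith
  have e3 : w.1 - u.1 = (c - a) * (q.1 - p.1) := by linarith
  have e4 : w.2 - u.2 = (c - a) * (q.2 - p.2) := by linarith
  unfold C3
  rw [e1, e2, e3, e4]
  ring

theorem C3_rot {a x y : P2} (h : C3 a x y) : C3 x y a := by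
  unfold C3 at h ⊢
  linarith

/-- The case in which the odd points are collinear. -/
theorem main_c (X O : Finset P2) (hO : ∀ a ∈ O, Odp X a)
    (hcol : ∀ u ∈ O, ∀ v ∈ O, ∀ w ∈ O, C3 u v w) {a b x : P2} (ha : a ∈ O) (hb : b ∈ O)
    (hab : a ≠ b) (hx : x ∈ X) (hxn : ¬ C3 a b x) : 2 * O.card + 1 ≤ X.card := by
  classical
  have hxO : ∀ c ∈ O, x ≠ c := by
    rintro c hc rfl
    exact hxn (hcol a ha b hb x hc)
  have hex : ∀ c ∈ O, ∃ y ∈ X, y ≠ c ∧ y ≠ x ∧ C3 c x y := by
    intro c hc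
    have h1 := (hO c hc).2 x hx (hxO c hc)
    have h2 : x ∈ (X.erase c).filter fun y => C3 c x y :=
      Finset.mem_filter.mpr ⟨Finset.mem_erase.mpr ⟨hxO c hc, hx⟩, C3_refl c x⟩
    have h3 : 1 < ((X.erase c).filter fun y => C3 c x y).card := by
      have h4 := Finset.card_pos.mpr ⟨x, h2⟩
      obtain ⟨k, hk⟩ := h1
      omega
    obtain ⟨y, hy, hyx⟩ := Finset.exists_mem_ne h3 x
    rw [Finset.mem_filter, Finset.mem_erase] at hy
    exact ⟨y, hy.1.2, hy.1.1, hyx, hy.2⟩
  choose! f hf1 hf2 hf3 hf4 using hex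
  -- `y_c` is not on the line `a b`
  have off : ∀ c ∈ O, ¬ C3 a b (f c) := by
    intro c hc h
    have h1 : C3 c (f c) x := C3_symm (hf4 c hc)
    -- `c` and `f c` on the line `a b`
    have h2 : C3 c (f c) a := C3_of hab (hcol a ha b hb c hc) h (by unfold C3; ring)
    have h3 : C3 c (f c) b := C3_of hab (hcol a ha b hb c hc) h (C3_refl a b)
    exact hxn (C3_of (hf2 c hc).symm h2 h3 h1)
  have inj : ∀ c ∈ O, ∀ c' ∈ O, f c = f c' → c = c' := by
    intro c hc c' hc' h
    by_contra hne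
    have h1 : C3 x (f c) c := C3_rot (hf4 c hc)
    have h2 : C3 x (f c) c' := by
      rw [h]
      exact C3_rot (hf4 c' hc')
    have h3 : C3 c c' x := C3_of (hf3 c hc).symm h1 h2 (by unfold C3; ring)
    have h4 : C3 c c' a := hcol c hc c' hc' a ha
    have h5 : C3 c c' b := hcol c hc c' hc' b hb
    exact hxn (C3_of hne h4 h5 h3)
  have hd1 : Disjoint O (insert x (O.image f)) := by
    rw [Finset.disjoint_left]
    intro c hc hc'
    rw [Finset.mem_insert, Finset.mem_image] at hc'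
    rcases hc' with rfl | ⟨c', hc'', h⟩
    · exact hxO c hc rfl
    · apply off c' hc''
      rw [h]
      exact hcol a ha b hb c hc
  have hxf : x ∉ O.image f := by
    intro h
    obtain ⟨c, hc, h⟩ := Finset.mem_image.mp h
    exact hf3 c hc h
  have hcard : (O ∪ insert x (O.image f)).card = O.card + (O.card + 1) := by
    rw [Finset.card_union_of_disjoint hd1, Finset.card_insert_of_notMem hxf,
      Finset.card_image_of_injOn]
    intro c hc c' hc' h
    exact inj c hc c' hc' h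
  have hsub : O ∪ insert x (O.image f) ⊆ X := by
    intro y hy
    rw [Finset.mem_union, Finset.mem_insert, Finset.mem_image] at hy
    rcases hy with hy | rfl | ⟨c, hc, rfl⟩
    · exact (hO y hy).1
    · exact hx
    · exact hf1 c hc
  have := Finset.card_le_card hsub
  omega

theorem exists_off' {X : Finset P2} (hX : ¬ Collinear ℝ (X : Set P2)) {a b : P2} (ha : a ∈ X)
    (hab : a ≠ b) : ∃ x ∈ X, ¬ C3 a b x := by
  by_contra hcon
  push Not at hcon
  apply hX
  rw [collinear_iff_of_mem (p₀ := a) (by exact_mod_cast ha)]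
  refine ⟨b - a, fun p hp => ?_⟩
  obtain ⟨l, h1, h2⟩ := C3_smul hab.symm (hcon p (by exact_mod_cast hp))
  refine ⟨l, ?_⟩
  refine Prod.ext ?_ ?_
  · simp only [vadd_eq_add, Prod.fst_add, Prod.smul_fst, Prod.fst_sub, smul_eq_mul]
    linarith
  · simp only [vadd_eq_add, Prod.snd_add, Prod.smul_snd, Prod.snd_sub, smul_eq_mul]
    linarith

/-- The main theorem, for sets of odd points. -/
theorem main_thm (X O : Finset P2) (hX : ¬ Collinear ℝ (X : Set P2)) (hO : ∀ a ∈ O, Odp X a) :
    2 * O.card ≤ X.card + 1 := by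
  have hne : X.Nonempty := by
    rw [Finset.nonempty_iff_ne_empty]
    rintro rfl
    exact hX (by simpa using collinear_empty ℝ P2)
  by_cases h1 : O.card ≤ 1
  · have := Finset.card_pos.mpr hne
    omega
  push Not at h1
  obtain ⟨a, ha, b, hb, hab⟩ := Finset.one_lt_card.mp h1
  by_cases hcol : ∀ u ∈ O, ∀ v ∈ O, ∀ w ∈ O, C3 u v w
  · obtain ⟨x, hx, hxn⟩ := exists_off' hX (hO a ha).1 hab
    have := main_c X O hO hcol ha hb hab hx hxn
    omega
  · push Not at hcol
    obtain ⟨u, hu, v, hv, w, hw, h⟩ := hcol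
    exact main_nc X O hO hu hv hw h

end Pool.Agent.OMI
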