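import Pool.Agent.Helper78_OMI.Tri2

/-!
# The parity of an odd point
-/

set_option autoImplicit false

open scoped BigOperators

namespace Pool.Agent.OMI

/-- The points of the plane. -/
abbrev P2 := ℝ × ℝ

/-- `a, x, y` are collinear. -/
def C3 (a x y : P2) : Prop := (x.1 - a.1) * (y.2 - a.2) - (x.2 - a.2) * (y.1 - a.1) = 0

noncomputable instance (a x y : P2) : Decidable (C3 a x y) := Classical.dec _

/-- Every line through `a` and another point of `X` contains an odd number of points of `X`. -/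
def Odp (X : Finset P2) (a : P2) : Prop :=
  a ∈ X ∧ ∀ x ∈ X, x ≠ a → Even ((X.erase a).filter fun y => C3 a x y).card

/-- cross product of `d` and `x - a` -/
def cr (a d x : P2) : ℝ := d.1 * (x.2 - a.2) - d.2 * (x.1 - a.1)

/-- scalar product of `d` and `x - a` -/
def dp (a d x : P2) : ℝ := d.1 * (x.1 - a.1) + d.2 * (x.2 - a.2)

/-- `x` is on the left of the directed line through `a`, or on it before `a`. -/
def Lf (a d x : P2) : Prop := 0 < cr a d x ∨ (cr a d x = 0 ∧ dp a d x < 0)

noncomputable instance (a d x : P2) : Decidable (Lf a d x) := Classical.dec _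

/-- The points on the left. -/
noncomputable def PP (X : Finset P2) (a d : P2) : Finset P2 := (X.erase a).filter fun x => Lf a d x

theorem C3_smul {a x y : P2} (hx : x ≠ a) (h : C3 a x y) :
    ∃ l : ℝ, y.1 - a.1 = l * (x.1 - a.1) ∧ y.2 - a.2 = l * (x.2 - a.2) := by
  unfold C3 at h
  by_cases h1 : x.1 - a.1 = 0
  · have h2 : x.2 - a.2 ≠ 0 := by
      intro h2
      exact hx (Prod.ext (by linarith) (by linarith))
    refine ⟨(y.2 - a.2) / (x.2 - a.2), ?_, ?_⟩
    · rw [h1] at h ⊢
      have : (x.2 - a.2) * (y.1 - a.1) = 0 := by linarith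
      rcases mul_eq_zero.mp this with h3 | h3
      · exact absurd h3 h2
      · rw [h3, mul_zero]
    · field_simp
  · refine ⟨(y.1 - a.1) / (x.1 - a.1), ?_, ?_⟩
    · field_simp
    · field_simp
      linarith

theorem C3_refl (a x : P2) : C3 a x x := by
  unfold C3
  ring

theorem C3_symm {a x y : P2} (h : C3 a x y) : C3 a y x := by
  unfold C3 at h ⊢
  linarith

theorem C3_trans {a x y z : P2} (hy : y ≠ a) (h1 : C3 a x y) (h2 : C3 a y z) : C3 a x z := by
  obtain ⟨l, e1, e2⟩ := C3_smul hy (C3_symm h1)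
  obtain ⟨m, e3, e4⟩ := C3_smul hy h2
  unfold C3
  rw [e1, e2, e3, e4]
  ring

theorem cr_mul {a d x y : P2} {l : ℝ} (h1 : y.1 - a.1 = l * (x.1 - a.1))
    (h2 : y.2 - a.2 = l * (x.2 - a.2)) : cr a d y = l * cr a d x ∧ dp a d y = l * dp a d x := by
  unfold cr dp
  rw [h1, h2]
  constructor <;> ring

theorem cr_dp_zero {a d x : P2} (hd : d ≠ 0) (hx : x ≠ a) : ¬ (cr a d x = 0 ∧ dp a d x = 0) := by
  rintro ⟨h1, h2⟩
  unfold cr at h1
  unfold dp at h2
  have hs : 0 < d.1 ^ 2 + d.2 ^ 2 := by
    rcases eq_or_ne d.1 0 with h | h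
    · have : d.2 ≠ 0 := fun h' => hd (Prod.ext h h')
      positivity
    · positivity
  have e1 : (d.1 ^ 2 + d.2 ^ 2) * (x.1 - a.1) = 0 := by
    linear_combination d.1 * h2 - d.2 * h1
  have e2 : (d.1 ^ 2 + d.2 ^ 2) * (x.2 - a.2) = 0 := by
    linear_combination d.2 * h2 + d.1 * h1
  rcases mul_eq_zero.mp e1 with h | h
  · exact hs.ne' h
  rcases mul_eq_zero.mp e2 with h' | h'
  · exact hs.ne' h'
  exact hx (Prod.ext (by linarith) (by linarith))

theorem Lf_pos {a d x y : P2} {l : ℝ} (hl : 0 < l) (h1 : y.1 - a.1 = l * (x.1 - a.1))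
    (h2 : y.2 - a.2 = l * (x.2 - a.2)) : Lf a d y ↔ Lf a d x := by
  obtain ⟨e1, e2⟩ := cr_mul (d := d) h1 h2
  unfold Lf
  rw [e1, e2]
  constructor
  · rintro (h | ⟨h, h'⟩)
    · exact Or.inl ((mul_pos_iff_of_pos_left hl).mp h)
    · right
      exact ⟨(mul_eq_zero.mp h).resolve_left hl.ne', by nlinarith⟩
  · rintro (h | ⟨h, h'⟩)
    · exact Or.inl (mul_pos hl h)
    · right
      exact ⟨by rw [h, mul_zero], by nlinarith⟩

theorem Lf_neg {a d x y : P2} {l : ℝ} (hd : d ≠ 0) (hx : x ≠ a) (hl : l < 0)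
    (h1 : y.1 - a.1 = l * (x.1 - a.1))
    (h2 : y.2 - a.2 = l * (x.2 - a.2)) : Lf a d y ↔ ¬ Lf a d x := by
  obtain ⟨e1, e2⟩ := cr_mul (d := d) h1 h2
  have hz := cr_dp_zero hd hx
  unfold Lf
  rw [e1, e2]
  rcases lt_trichotomy (cr a d x) 0 with h | h | h
  · constructor
    · intro _ h'
      rcases h' with h' | ⟨h', _⟩
      · linarith
      · linarith
    · intro _
      left
      nlinarith
  · rw [h]
    have hdp : dp a d x ≠ 0 := fun h' => hz ⟨h, h'⟩
    rcases lt_or_gt_of_ne hdp with h' | h'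
    · constructor
      · rintro (h'' | ⟨_, h''⟩)
        · simp at h''
        · nlinarith
      · intro h''
        exact absurd (Or.inr ⟨rfl, h'⟩) h''
    · constructor
      · rintro _ (h'' | ⟨_, h''⟩)
        · exact lt_irrefl _ h''
        · linarith
      · intro _
        right
        exact ⟨by ring, by nlinarith⟩
  · constructor
    · rintro (h' | ⟨h', _⟩)
      · nlinarith
      · rcases mul_eq_zero.mp h' with h'' | h''
        · linarith
        · linarith
    · intro h'
      exact absurd (Or.inl h) h'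

/-- membership is constant or complementary along a line through `a` -/
theorem Lf_line {a x y : P2} (hx : x ≠ a) (hy : y ≠ a) (h : C3 a x y) :
    (∀ d : P2, d ≠ 0 → (Lf a d y ↔ Lf a d x)) ∨ (∀ d : P2, d ≠ 0 → (Lf a d y ↔ ¬ Lf a d x)) := by
  obtain ⟨l, h1, h2⟩ := C3_smul hx h
  rcases lt_trichotomy l 0 with hl | hl | hl
  · exact Or.inr fun d hd => Lf_neg hd hx hl h1 h2
  · exfalso
    rw [hl, zero_mul] at h1 h2
    exact hy (Prod.ext (by linarith) (by linarith))
  · exact Or.inl fun d _ => Lf_pos hl h1 h2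

/-- A set closed under the lines through `a` has an even number of elements. -/
theorem even_closed {X : Finset P2} {a : P2} (ha : Odp X a) (S : Finset P2)
    (hS : S ⊆ X.erase a) (hc : ∀ x ∈ S, ∀ y ∈ X.erase a, C3 a x y → y ∈ S) : Even S.card := by
  classical
  set f : P2 → Finset P2 := fun x => (X.erase a).filter fun y => C3 a x y with hf
  rw [Finset.card_eq_sum_card_image f S]
  refine Finset.even_sum _ fun b hb => ?_
  obtain ⟨x, hx, rfl⟩ := Finset.mem_image.mp hb
  have hxX := Finset.mem_erase.mp (hS hx)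
  have : S.filter (fun y => f y = f x) = f x := by
    ext y
    constructor
    · intro hy
      rw [Finset.mem_filter] at hy
      rw [← hy.2, hf]
      exact Finset.mem_filter.mpr ⟨hS hy.1, C3_refl a y⟩
    · intro hy
      have hy' := Finset.mem_filter.mp hy
      have hya := (Finset.mem_erase.mp hy'.1).1
      rw [Finset.mem_filter]
      refine ⟨hc x hx y hy'.1 hy'.2, ?_⟩
      rw [hf]
      refine Finset.filter_congr fun z hz => ?_
      constructor
      · exact fun h => C3_trans hya hy'.2 h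
      · exact fun h => C3_trans hxX.1 (C3_symm hy'.2) h
  rw [this]
  exact ha.2 x hxX.2 hxX.1

/-- The parity does not depend on the direction. -/
theorem par_indep {X : Finset P2} {a : P2} (ha : Odp X a) {d d' : P2} (hd : d ≠ 0)
    (hd' : d' ≠ 0) : Even (PP X a d).card ↔ Even (PP X a d').card := by
  classical
  have key : Even ((X.erase a).filter fun x => ¬ (Lf a d x ↔ Lf a d' x)).card := by
    refine even_closed ha _ (Finset.filter_subset _ _) ?_
    intro x hx y hy hxy
    rw [Finset.mem_filter] at hx ⊢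
    refine ⟨hy, ?_⟩
    rcases Lf_line (Finset.mem_erase.mp hx.1).1 (Finset.mem_erase.mp hy).1 hxy with h | h
    · rw [h d hd, h d' hd']
      exact hx.2
    · rw [h d hd, h d' hd']
      tauto
  have hcard : (PP X a d).card + (PP X a d').card =
      ((X.erase a).filter fun x => ¬ (Lf a d x ↔ Lf a d' x)).card
        + 2 * ((X.erase a).filter fun x => Lf a d x ∧ Lf a d' x).card := by
    unfold PP
    simp only [Finset.card_filter, ← Finset.sum_add_distrib, Finset.mul_sum]
    refine Finset.sum_congr rfl fun x _ => ?_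
    by_cases h1 : Lf a d x <;> by_cases h2 : Lf a d' x <;> simp [h1, h2]
  have : Even ((PP X a d).card + (PP X a d').card) := by
    rw [hcard]
    exact key.add (even_two_mul _)
  rw [Nat.even_add] at this
  exact this

/-- The points strictly between. -/
noncomputable def Bt (X : Finset P2) (a b : P2) : Finset P2 :=
  X.filter fun x => cr a (b - a) x = 0 ∧ 0 < dp a (b - a) x ∧ dp b (b - a) x < 0

theorem PP_two {X : Finset P2} {a b : P2} (ha : a ∈ X) (hb : b ∈ X) (hab : a ≠ b) :
    (PP X b (b - a)).card = (PP X a (b - a)).card + 1 + (Bt X a b).card := by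
  classical
  have hd : b - a ≠ 0 := sub_ne_zero.mpr hab.symm
  have hs : 0 < (b.1 - a.1) ^ 2 + (b.2 - a.2) ^ 2 := by
    rcases eq_or_ne (b.1 - a.1) 0 with h | h
    · have : b.2 - a.2 ≠ 0 := fun h' => hab (Prod.ext (by linarith) (by linarith))
      positivity
    · positivity
  have e1 : ∀ x, cr b (b - a) x = cr a (b - a) x := by
    intro x
    unfold cr
    simp only [Prod.fst_sub, Prod.snd_sub]
    ring
  have e2 : ∀ x, dp b (b - a) x = dp a (b - a) x - ((b.1 - a.1) ^ 2 + (b.2 - a.2) ^ 2) := by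
    intro x
    unfold dp
    simp only [Prod.fst_sub, Prod.snd_sub]
    ring
  have ea : cr a (b - a) a = 0 ∧ dp a (b - a) a = 0 := by
    unfold cr dp
    constructor <;> ring
  have hPb : PP X b (b - a) = X.filter fun x => Lf b (b - a) x := by
    unfold PP
    ext x
    simp only [Finset.mem_filter, Finset.mem_erase]
    constructor
    · exact fun h => ⟨h.1.2, h.2⟩
    · intro h
      refine ⟨⟨?_, h.1⟩, h.2⟩
      rintro rfl
      rcases h.2 with h' | ⟨_, h'⟩
      · unfold cr at h'
        simp at h'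
      · unfold dp at h'
        simp at h'
  have hPa : PP X a (b - a) = X.filter fun x => Lf a (b - a) x := by
    unfold PP
    ext x
    simp only [Finset.mem_filter, Finset.mem_erase]
    constructor
    · exact fun h => ⟨h.1.2, h.2⟩
    · intro h
      refine ⟨⟨?_, h.1⟩, h.2⟩
      rintro rfl
      rcases h.2 with h' | ⟨_, h'⟩
      · rw [ea.1] at h'
        exact lt_irrefl _ h'
      · rw [ea.2] at h'
        exact lt_irrefl _ h'
  have hone : (X.filter fun x => x = a).card = 1 := by
    rw [Finset.filter_eq' X a, if_pos ha, Finset.card_singleton]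
  rw [hPa, hPb, ← hone]
  unfold Bt
  simp only [Finset.card_filter, ← Finset.sum_add_distrib]
  refine Finset.sum_congr rfl fun x _ => ?_
  have hLb : Lf b (b - a) x ↔ (0 < cr a (b - a) x ∨ (cr a (b - a) x = 0 ∧
      dp a (b - a) x - ((b.1 - a.1) ^ 2 + (b.2 - a.2) ^ 2) < 0)) := by
    unfold Lf
    rw [e1, e2]
  have hLa : Lf a (b - a) x ↔ (0 < cr a (b - a) x ∨ (cr a (b - a) x = 0 ∧
      dp a (b - a) x < 0)) := Iff.rfl
  rw [e2]
  by_cases hxa : x = a
  · have h1 : cr a (b - a) x = 0 := by rw [hxa]; exact ea.1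
    have h2 : dp a (b - a) x = 0 := by rw [hxa]; exact ea.2
    rw [if_pos (hLb.mpr (Or.inr ⟨h1, by rw [h2]; linarith⟩)), if_pos hxa, if_neg, if_neg]
    · rintro ⟨_, h3, _⟩
      linarith
    · rintro (h3 | ⟨_, h3⟩) <;> linarith
  · have hz := cr_dp_zero hd hxa
    rw [if_neg hxa]
    rcases lt_trichotomy (cr a (b - a) x) 0 with h | h | h
    · rw [if_neg, if_neg, if_neg]
      · rintro ⟨h3, _⟩
        linarith
      · rintro (h3 | ⟨h3, _⟩) <;> linarith
      · intro h3
        rcases hLb.mp h3 with h3 | ⟨h3, _⟩ <;> linarith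
    · have h3 : dp a (b - a) x ≠ 0 := fun h' => hz ⟨h, h'⟩
      rcases lt_or_gt_of_ne h3 with h4 | h4
      · rw [if_pos (hLb.mpr (Or.inr ⟨h, by linarith⟩)), if_pos (hLa.mpr (Or.inr ⟨h, h4⟩)), if_neg]
        rintro ⟨_, h5, _⟩
        linarith
      · by_cases h5 : dp a (b - a) x - ((b.1 - a.1) ^ 2 + (b.2 - a.2) ^ 2) < 0
        · rw [if_pos (hLb.mpr (Or.inr ⟨h, h5⟩)), if_neg, if_pos ⟨h, h4, h5⟩]
          rintro (h6 | ⟨_, h6⟩) <;> linarith
        · rw [if_neg, if_neg, if_neg]
          · rintro ⟨_, _, h6⟩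
            exact h5 h6
          · rintro (h6 | ⟨_, h6⟩) <;> linarith
          · intro h6
            rcases hLb.mp h6 with h6 | ⟨_, h6⟩
            · linarith
            · exact h5 h6
    · rw [if_pos (hLb.mpr (Or.inl h)), if_pos (hLa.mpr (Or.inl h)), if_neg]
      rintro ⟨h3, _⟩
      linarith

end Pool.Agent.OMI
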