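import Pool.Agent.Helper78_OMI.Main
import Pool.Agent.Helper43_OM.Pub

/-!
# Odd points and lines of the plane
-/

set_option autoImplicit false

open scoped BigOperators

namespace Pool.Agent.OMI

open Pool.Agent.OM

theorem mem_line_iff {a b x : P2} (hab : a ≠ b) : x ∈ line[ℝ, a, b] ↔ C3 a b x := by
  constructor
  · intro h
    rw [mem_affineSpan_pair_iff_exists_lineMap_eq] at h
    obtain ⟨r, rfl⟩ := h
    unfold C3
    simp only [AffineMap.lineMap_apply, vsub_eq_sub, vadd_eq_add, Prod.fst_add, Prod.snd_add,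
      Prod.smul_fst, Prod.smul_snd, Prod.fst_sub, Prod.snd_sub, smul_eq_mul]
    ring
  · intro h
    obtain ⟨l, h1, h2⟩ := C3_smul hab.symm h
    rw [mem_affineSpan_pair_iff_exists_lineMap_eq]
    refine ⟨l, ?_⟩
    refine Prod.ext ?_ ?_
    · simp only [AffineMap.lineMap_apply, vsub_eq_sub, vadd_eq_add, Prod.fst_add,
        Prod.smul_fst, Prod.fst_sub, smul_eq_mul]
      linarith
    · simp only [AffineMap.lineMap_apply, vsub_eq_sub, vadd_eq_add, Prod.snd_add,
        Prod.smul_snd, Prod.snd_sub, smul_eq_mul]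
      linarith

theorem odp_of {X : Finset P2} {a : P2} (ha : a ∈ X)
    (h : ∀ L ∈ Spanned (X : Set P2), a ∈ L → Odd ((X : Set P2) ∩ L).ncard) : Odp X a := by
  classical
  refine ⟨ha, fun x hx hxa => ?_⟩
  have h1 := h (line[ℝ, a, x]) ⟨a, ha, x, hx, hxa.symm, rfl⟩ (left_mem_affineSpan_pair ℝ a x)
  have h2 : ((X : Set P2) ∩ line[ℝ, a, x]) =
      ((insert a ((X.erase a).filter fun y => C3 a x y) : Finset P2) : Set P2) := by
    ext y
    rw [Set.mem_inter_iff, Finset.mem_coe, Finset.mem_coe, SetLike.mem_coe,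
      mem_line_iff hxa.symm, Finset.mem_insert, Finset.mem_filter, Finset.mem_erase]
    constructor
    · rintro ⟨h3, h4⟩
      by_cases hy : y = a
      · exact Or.inl hy
      · exact Or.inr ⟨⟨hy, h3⟩, h4⟩
    · rintro (h3 | ⟨⟨_, h3⟩, h4⟩)
      · rw [h3]
        exact ⟨ha, by unfold C3; ring⟩
      · exact ⟨h3, h4⟩
  rw [h2, Set.ncard_coe_finset, Finset.card_insert_of_notMem (by simp)] at h1
  rw [Nat.odd_add_one, Nat.not_odd_iff_even] at h1
  exact h1

theorem odd_of_omissible {X : Set P2} (hfin : X.Finite) (h3 : ∀ L ∈ Spanned X, (X ∩ L).ncard ≤ 3)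
    {x : P2} (hx : Omissible X x) : ∀ L ∈ Spanned X, x ∈ L → Odd (X ∩ L).ncard := by
  intro L hL hxL
  have h4 := h3 L hL
  have hL' := hL
  rw [← hx.2] at hL'
  obtain ⟨p, hp, q, hq, hpq, rfl⟩ := hL'
  have hsub : ({x, p, q} : Set P2) ⊆ X ∩ line[ℝ, p, q] := by
    rintro y (rfl | rfl | rfl)
    · exact ⟨hx.1, hxL⟩
    · exact ⟨hp.1, left_mem_affineSpan_pair ℝ _ _⟩
    · exact ⟨hq.1, right_mem_affineSpan_pair ℝ _ _⟩
  have h5 := Set.ncard_le_ncard hsub (hfin.subset Set.inter_subset_left)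
  have h6 : ({x, p, q} : Set P2).ncard = 3 := by
    rw [Set.ncard_eq_three]
    exact ⟨x, p, q, fun h => hp.2 h.symm, fun h => hq.2 h.symm, hpq, rfl⟩
  have h7 : (X ∩ line[ℝ, p, q]).ncard = 3 := by omega
  rw [h7]
  decide

/-- The first statement. -/
theorem odd_bound (X : Set P2) (hfin : X.Finite) (hX : ¬ Collinear ℝ X) :
    2 * {x | x ∈ X ∧ ∀ L ∈ Spanned X, x ∈ L → Odd (X ∩ L).ncard}.ncard ≤ X.ncard + 1 := by
  classical
  lift X to Finset P2 using hfin
  have hsub : {x | x ∈ (X : Set P2) ∧ ∀ L ∈ Spanned (X : Set P2), x ∈ L →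
      Odd ((X : Set P2) ∩ L).ncard} =
      ((X.filter fun x => ∀ L ∈ Spanned (X : Set P2), x ∈ L →
      Odd ((X : Set P2) ∩ L).ncard : Finset P2) : Set P2) := by
    ext x
    simp
  rw [hsub, Set.ncard_coe_finset, Set.ncard_coe_finset]
  refine main_thm X _ hX fun a ha => ?_
  rw [Finset.mem_filter] at ha
  exact odp_of ha.1 ha.2

/-- The second statement. -/
theorem omissible_bound (X : Set P2) (hfin : X.Finite) (hX : ¬ Collinear ℝ X)
    (h3 : ∀ L ∈ Spanned X, (X ∩ L).ncard ≤ 3) :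
    2 * {x | Omissible X x}.ncard ≤ X.ncard + 1 := by
  have h1 := odd_bound X hfin hX
  have h2 : {x | Omissible X x}.ncard ≤
      {x | x ∈ X ∧ ∀ L ∈ Spanned X, x ∈ L → Odd (X ∩ L).ncard}.ncard := by
    refine Set.ncard_le_ncard ?_ (hfin.subset fun x hx => hx.1)
    intro x hx
    exact ⟨hx.1, odd_of_omissible hfin h3 hx⟩
  omega

end Pool.Agent.OMI
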