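import Pool.Agent.Helper78_OMI.Wt

/-!
# Triangles with coloured vertices
-/

set_option autoImplicit false

open scoped BigOperators

namespace Pool.Agent.OMI

theorem pos_ne {a b : ℝ} (h : 0 < a * b) : a ≠ 0 ∧ b ≠ 0 := by
  constructor
  · rintro rfl
    simp at h
  · rintro rfl
    simp at h

theorem div_pos_of_mul {a b : ℝ} (h : 0 < a * b) : 0 < b / a := by
  obtain ⟨ha, _⟩ := pos_ne h
  have h1 : b / a = (a * b) / a ^ 2 := by
    field_simp
  rw [h1]
  positivity

theorem sq_pos' {a : ℝ} (h : a ≠ 0) : 0 < a ^ 2 := by positivity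

theorem eq_smul_of (p q r x y : V) (hD : dt p q r ≠ 0) (s : ℝ)
    (h1 : dt y q r = s * dt x q r) (h2 : dt p y r = s * dt p x r)
    (h3 : dt p q y = s * dt p q x) : y = s • x := by
  have hy := cramer p q r y
  have hx := cramer p q r x
  have h : dt p q r • y = dt p q r • (s • x) := by
    rw [smul_comm, hy, hx, h1, h2, h3]
    simp only [smul_add, smul_smul]
  exact smul_right_injective V hD h

/-- Splitting at an interior point. -/
theorem w_split3 (p q r x y : V) (h1 : 0 < dt p q r * dt x q r) (h2 : 0 < dt p q r * dt p x r)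
    (h3 : 0 < dt p q r * dt p q x) (hy : ∀ s : ℝ, 0 < s → y ≠ s • x) :
    w p q r y = w x q r y + w p x r y + w p q x y := by
  obtain ⟨hD, hP1⟩ := pos_ne h1
  obtain ⟨-, hP2⟩ := pos_ne h2
  obtain ⟨-, hP3⟩ := pos_ne h3
  have g1 := div_pos_of_mul h1
  have g2 := div_pos_of_mul h2
  have g3 := div_pos_of_mul h3
  have k1 : dt x y r = (dt x q r * dt p y r - dt p x r * dt y q r) / dt p q r := by
    rw [eq_div_iff hD]
    exact plu1 p q r x y
  have k2 : dt x q y = (dt x q r * dt p q y - dt p q x * dt y q r) / dt p q r := by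
    rw [eq_div_iff hD]
    exact plu2 p q r x y
  have k3 : dt p x y = (dt p x r * dt p q y - dt p q x * dt p y r) / dt p q r := by
    rw [eq_div_iff hD]
    exact plu3 p q r x y
  have k1' : dt y x r = - dt x y r := by unfold dt; ring
  have k2' : dt y q x = - dt x q y := by unfold dt; ring
  have k3' : dt p y x = - dt p x y := by unfold dt; ring
  have e0 : w p q r y = W (dt y q r / dt x q r) (dt p y r / dt p x r) (dt p q y / dt p q x) := by
    unfold w
    rw [← W_scale h1 h2 h3 (dt y q r / dt x q r) (dt p y r / dt p x r) (dt p q y / dt p q x)]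
    congr 1 <;> field_simp
  have e1 : w x q r y = W (dt y q r / dt x q r)
      (dt p y r / dt p x r - dt y q r / dt x q r) (dt p q y / dt p q x - dt y q r / dt x q r) := by
    unfold w
    rw [← W_scale (sq_pos' hP1) (mul_pos (sq_pos' hP1) g2) (mul_pos (sq_pos' hP1) g3)
      (dt y q r / dt x q r)
      (dt p y r / dt p x r - dt y q r / dt x q r) (dt p q y / dt p q x - dt y q r / dt x q r)]
    rw [k1, k2]
    congr 1 <;> field_simp
  have e2 : w p x r y = W (dt y q r / dt x q r - dt p y r / dt p x r)
      (dt p y r / dt p x r) (dt p q y / dt p q x - dt p y r / dt p x r) := by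
    unfold w
    rw [← W_scale (mul_pos (sq_pos' hP2) g1) (sq_pos' hP2) (mul_pos (sq_pos' hP2) g3)
      (dt y q r / dt x q r - dt p y r / dt p x r)
      (dt p y r / dt p x r) (dt p q y / dt p q x - dt p y r / dt p x r)]
    rw [k1', k1, k3]
    congr 1 <;> field_simp
    ring
  have e3 : w p q x y = W (dt y q r / dt x q r - dt p q y / dt p q x)
      (dt p y r / dt p x r - dt p q y / dt p q x) (dt p q y / dt p q x) := by
    unfold w
    rw [← W_scale (mul_pos (sq_pos' hP3) g1) (mul_pos (sq_pos' hP3) g2) (sq_pos' hP3)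
      (dt y q r / dt x q r - dt p q y / dt p q x)
      (dt p y r / dt p x r - dt p q y / dt p q x) (dt p q y / dt p q x)]
    rw [k2', k2, k3', k3]
    congr 1 <;> field_simp <;> ring
  rw [e0, e1, e2, e3]
  refine W_split _ _ _ ?_
  rintro ⟨hz, hz2, hz3⟩
  refine hy _ hz (eq_smul_of p q r x y hD _ ?_ ?_ ?_)
  · field_simp
  · rw [hz2]
    field_simp
  · rw [hz3]
    field_simp

/-- Splitting at a point of an edge. -/
theorem w_split2 (p q r x y : V) (h1 : dt x q r = 0) (h2 : 0 < dt p q r * dt p x r)
    (h3 : 0 < dt p q r * dt p q x) (hy : ∀ s : ℝ, 0 < s → y ≠ s • x) :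
    w p q r y = w p x r y + w p q x y := by
  obtain ⟨hD, hP2⟩ := pos_ne h2
  obtain ⟨-, hP3⟩ := pos_ne h3
  have g2 := div_pos_of_mul h2
  have g3 := div_pos_of_mul h3
  have k1 : dt x y r = (dt x q r * dt p y r - dt p x r * dt y q r) / dt p q r := by
    rw [eq_div_iff hD]
    exact plu1 p q r x y
  have k2 : dt x q y = (dt x q r * dt p q y - dt p q x * dt y q r) / dt p q r := by
    rw [eq_div_iff hD]
    exact plu2 p q r x y
  have k3 : dt p x y = (dt p x r * dt p q y - dt p q x * dt p y r) / dt p q r := by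
    rw [eq_div_iff hD]
    exact plu3 p q r x y
  have k1' : dt y x r = - dt x y r := by unfold dt; ring
  have k2' : dt y q x = - dt x q y := by unfold dt; ring
  have k3' : dt p y x = - dt p x y := by unfold dt; ring
  have e0 : w p q r y = W (dt p q r * dt y q r) (dt p y r / dt p x r) (dt p q y / dt p q x) := by
    unfold w
    rw [← W_scale one_pos h2 h3 (dt p q r * dt y q r) (dt p y r / dt p x r)
      (dt p q y / dt p q x)]
    congr 1
    · ring
    · field_simp
    · field_simp
  have e2 : w p x r y = W (dt p q r * dt y q r)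
      (dt p y r / dt p x r) (dt p q y / dt p q x - dt p y r / dt p x r) := by
    unfold w
    rw [← W_scale (sq_pos' g2.ne') (sq_pos' hP2) (mul_pos (sq_pos' hP2) g3)
      (dt p q r * dt y q r)
      (dt p y r / dt p x r) (dt p q y / dt p q x - dt p y r / dt p x r)]
    rw [k1', k1, k3, h1]
    congr 1 <;> field_simp
    ring
  have e3 : w p q x y = W (dt p q r * dt y q r)
      (dt p y r / dt p x r - dt p q y / dt p q x) (dt p q y / dt p q x) := by
    unfold w
    rw [← W_scale (sq_pos' g3.ne') (mul_pos (sq_pos' hP3) g2) (sq_pos' hP3)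
      (dt p q r * dt y q r)
      (dt p y r / dt p x r - dt p q y / dt p q x) (dt p q y / dt p q x)]
    rw [k2', k2, k3', k3, h1]
    congr 1 <;> field_simp <;> ring
  rw [e0, e2, e3]
  refine W_split2 _ _ _ ?_
  rintro ⟨hz, hz2, hz3⟩
  have hd : dt y q r = 0 := by
    rcases mul_eq_zero.mp hz with h | h
    · exact absurd h hD
    · exact h
  refine hy _ hz2 (eq_smul_of p q r x y hD _ ?_ ?_ ?_)
  · rw [hd, h1, mul_zero]
  · field_simp
  · rw [hz3]
    field_simp

end Pool.Agent.OMI
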