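import Pool.Agent.Helper78_OMI.Tri

/-!
# The triangle lemma
-/

set_option autoImplicit false

open scoped BigOperators

namespace Pool.Agent.OMI

open Classical in
/-- `Σ` over `y ∈ Y` of `± w`, with the sign `-` for `y ∈ O`. -/
noncomputable def FF (Y O : Finset V) (p q r : V) : ℤ :=
  ∑ y ∈ Y, (if y ∈ O then (-1 : ℤ) else 1) * w p q r y

theorem FF_rot (Y O : Finset V) (p q r : V) : FF Y O q r p = FF Y O p q r := by
  unfold FF
  refine Finset.sum_congr rfl fun y _ => ?_
  rw [w_rot]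

/-- No two vectors of `Y` are positive multiples of each other. -/
def Red (Y : Finset V) : Prop := ∀ y ∈ Y, ∀ z ∈ Y, ∀ c : ℝ, 0 < c → z = c • y → z = y

theorem W_ne_zero {a b c : ℝ} (h : W a b c ≠ 0) :
    (0 < a ∧ 0 < b ∧ 0 < c) ∨ (a = 0 ∧ 0 < b ∧ 0 < c) ∨ (0 < a ∧ b = 0 ∧ 0 < c) ∨
      (0 < a ∧ 0 < b ∧ c = 0) := by
  unfold W Ws at h
  rcases sgn_cases a with ⟨h1, e1⟩ | ⟨h1, e1⟩ | ⟨h1, e1⟩ <;>
  rcases sgn_cases b with ⟨h2, e2⟩ | ⟨h2, e2⟩ | ⟨h2, e2⟩ <;>
  rcases sgn_cases c with ⟨h3, e3⟩ | ⟨h3, e3⟩ | ⟨h3, e3⟩ <;>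
  rw [e1, e2, e3] at h <;>
  first
  | exact Or.inl ⟨h1, h2, h3⟩
  | exact Or.inr (Or.inl ⟨h1, h2, h3⟩)
  | exact Or.inr (Or.inr (Or.inl ⟨h1, h2, h3⟩))
  | exact Or.inr (Or.inr (Or.inr ⟨h1, h2, h3⟩))
  | (exfalso; revert h; decide)

theorem W_two {a b c : ℝ} (h1 : 0 < a) (h2 : 0 < b) (h3 : 0 < c) : W a b c = 2 := by
  unfold W
  rw [sign_pos h1, sign_pos h2, sign_pos h3]
  decide

theorem W_one {b c : ℝ} (h2 : 0 < b) (h3 : 0 < c) : W 0 b c = 1 := by
  unfold W
  rw [sign_zero, sign_pos h2, sign_pos h3]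
  decide

theorem W_zero (a : ℝ) : W a 0 0 = 0 := by
  unfold W
  rw [sign_zero]
  rcases sgn_cases a with ⟨h1, e1⟩ | ⟨h1, e1⟩ | ⟨h1, e1⟩ <;> rw [e1] <;> decide

theorem w_vertex (p q r : V) : w p q r p = 0 := by
  unfold w
  have e1 : dt p p r = 0 := by unfold dt; ring
  have e2 : dt p q p = 0 := by unfold dt; ring
  rw [e1, e2, mul_zero]
  exact W_zero _

theorem w_vertex2 (p q r : V) : w p q r q = 0 := by
  rw [← w_rot]
  exact w_vertex q r p

theorem w_vertex3 (p q r : V) : w p q r r = 0 := by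
  rw [← w_rot, ← w_rot]
  exact w_vertex r p q

/-- the number of points of `O` of positive weight -/
noncomputable def cnt (O : Finset V) (p q r : V) : ℕ := (O.filter fun y => w p q r y ≠ 0).card

theorem cnt_rot (O : Finset V) (p q r : V) : cnt O q r p = cnt O p q r := by
  unfold cnt
  congr 1
  refine Finset.filter_congr fun y _ => ?_
  rw [w_rot]

theorem ne_smul {Y : Finset V} (hY : Red Y) {x y : V} (hx : x ∈ Y) (hy : y ∈ Y) (hxy : y ≠ x)
    (s : ℝ) (hs : 0 < s) : y ≠ s • x := fun h => hxy (hY x hx y hy s hs h)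

theorem cnt_lt {O : Finset V} {p q r p' q' r' x : V} (hx : x ∈ O) (hwx : w p q r x ≠ 0)
    (hwx' : w p' q' r' x = 0) (h : ∀ y ∈ O, y ≠ x → w p' q' r' y ≤ w p q r y) :
    cnt O p' q' r' < cnt O p q r := by
  unfold cnt
  refine Finset.card_lt_card ?_
  rw [Finset.ssubset_iff_of_subset]
  · refine ⟨x, Finset.mem_filter.mpr ⟨hx, hwx⟩, fun h' => ?_⟩
    exact (Finset.mem_filter.mp h').2 hwx'
  · intro y hy
    rw [Finset.mem_filter] at hy ⊢
    refine ⟨hy.1, fun h0 => hy.2 ?_⟩
    have hyx : y ≠ x := by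
      rintro rfl
      exact hy.2 hwx'
    have h1 := h y hy.1 hyx
    have h2 := w_nonneg p' q' r' y
    omega

/-- The step at an interior point. -/
theorem step3 {Y O : Finset V} (hY : Red Y) (hO : O ⊆ Y) {p q r x : V} (hx : x ∈ O)
    (h1 : 0 < dt p q r * dt x q r) (h2 : 0 < dt p q r * dt p x r)
    (h3 : 0 < dt p q r * dt p q x) :
    cnt O x q r < cnt O p q r ∧ cnt O p x r < cnt O p q r ∧ cnt O p q x < cnt O p q r ∧
    FF Y O p q r = FF Y O x q r + FF Y O p x r + FF Y O p q x - 2 := by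
  have hw : w p q r x = 2 := W_two h1 h2 h3
  have hs : ∀ y ∈ Y, y ≠ x → w p q r y = w x q r y + w p x r y + w p q x y := by
    intro y hy hyx
    exact w_split3 p q r x y h1 h2 h3 (ne_smul hY (hO hx) hy hyx)
  have hw' : w p q r x ≠ 0 := by rw [hw]; norm_num
  refine ⟨?_, ?_, ?_, ?_⟩
  · refine cnt_lt hx hw' (w_vertex _ _ _) fun y hy hyx => ?_
    have := hs y (hO hy) hyx
    have a1 := w_nonneg p x r y
    have a2 := w_nonneg p q x y
    omega
  · refine cnt_lt hx hw' (w_vertex2 _ _ _) fun y hy hyx => ?_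
    have := hs y (hO hy) hyx
    have a1 := w_nonneg x q r y
    have a2 := w_nonneg p q x y
    omega
  · refine cnt_lt hx hw' (w_vertex3 _ _ _) fun y hy hyx => ?_
    have := hs y (hO hy) hyx
    have a1 := w_nonneg x q r y
    have a2 := w_nonneg p x r y
    omega
  · unfold FF
    rw [← Finset.sum_add_distrib, ← Finset.sum_add_distrib,
      ← Finset.add_sum_erase Y _ (hO hx), ← Finset.add_sum_erase Y _ (hO hx)]
    rw [w_vertex, w_vertex2, w_vertex3, hw, if_pos hx]
    have : ∑ y ∈ Y.erase x, (if y ∈ O then (-1 : ℤ) else 1) * w p q r y =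
        ∑ y ∈ Y.erase x, ((if y ∈ O then (-1 : ℤ) else 1) * w x q r y +
          (if y ∈ O then (-1 : ℤ) else 1) * w p x r y +
          (if y ∈ O then (-1 : ℤ) else 1) * w p q x y) := by
      refine Finset.sum_congr rfl fun y hy => ?_
      rw [Finset.mem_erase] at hy
      rw [hs y hy.2 hy.1]
      ring
    rw [this]
    ring

/-- The step at a point of an edge. -/
theorem step2 {Y O : Finset V} (hY : Red Y) (hO : O ⊆ Y) {p q r x : V} (hx : x ∈ O)
    (h1 : dt x q r = 0) (h2 : 0 < dt p q r * dt p x r)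
    (h3 : 0 < dt p q r * dt p q x) :
    cnt O p x r < cnt O p q r ∧ cnt O p q x < cnt O p q r ∧
    FF Y O p q r = FF Y O p x r + FF Y O p q x - 1 := by
  have hw : w p q r x = 1 := by
    unfold w
    rw [h1, mul_zero]
    exact W_one h2 h3
  have hs : ∀ y ∈ Y, y ≠ x → w p q r y = w p x r y + w p q x y := by
    intro y hy hyx
    exact w_split2 p q r x y h1 h2 h3 (ne_smul hY (hO hx) hy hyx)
  have hw' : w p q r x ≠ 0 := by rw [hw]; norm_num
  refine ⟨?_, ?_, ?_⟩
  · refine cnt_lt hx hw' (w_vertex2 _ _ _) fun y hy hyx => ?_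
    have := hs y (hO hy) hyx
    have a2 := w_nonneg p q x y
    omega
  · refine cnt_lt hx hw' (w_vertex3 _ _ _) fun y hy hyx => ?_
    have := hs y (hO hy) hyx
    have a2 := w_nonneg p x r y
    omega
  · unfold FF
    rw [← Finset.sum_add_distrib,
      ← Finset.add_sum_erase Y _ (hO hx), ← Finset.add_sum_erase Y _ (hO hx)]
    rw [w_vertex2, w_vertex3, hw, if_pos hx]
    have : ∑ y ∈ Y.erase x, (if y ∈ O then (-1 : ℤ) else 1) * w p q r y =
        ∑ y ∈ Y.erase x, (
          (if y ∈ O then (-1 : ℤ) else 1) * w p x r y +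
          (if y ∈ O then (-1 : ℤ) else 1) * w p q x y) := by
      refine Finset.sum_congr rfl fun y hy => ?_
      rw [Finset.mem_erase] at hy
      rw [hs y hy.2 hy.1]
      ring
    rw [this]
    ring

/-- `y` lies in the open cone on `u` and `v`. -/
def InC (u v y : V) : Prop := ∃ s t : ℝ, 0 < s ∧ 0 < t ∧ y = s • u + t • v

theorem InC_w {p q r y : V} (hD : dt p q r ≠ 0) (h : InC q r y) : w p q r y = 1 := by
  obtain ⟨s, t, hs, ht, rfl⟩ := h
  unfold w
  have e1 : dt (s • q + t • r) q r = 0 := by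
    unfold dt
    simp only [Prod.smul_fst, Prod.smul_snd, Prod.fst_add, Prod.snd_add, smul_eq_mul]
    ring
  have e2 : dt p (s • q + t • r) r = s * dt p q r := by
    unfold dt
    simp only [Prod.smul_fst, Prod.smul_snd, Prod.fst_add, Prod.snd_add, smul_eq_mul]
    ring
  have e3 : dt p q (s • q + t • r) = t * dt p q r := by
    unfold dt
    simp only [Prod.smul_fst, Prod.smul_snd, Prod.fst_add, Prod.snd_add, smul_eq_mul]
    ring
  rw [e1, e2, e3, mul_zero]
  refine W_one ?_ ?_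
  · have : dt p q r * (s * dt p q r) = s * dt p q r ^ 2 := by ring
    rw [this]
    positivity
  · have : dt p q r * (t * dt p q r) = t * dt p q r ^ 2 := by ring
    rw [this]
    positivity

/-- The hypothesis on the colouring. -/
def Col (Y O : Finset V) (κ : V → Bool) : Prop :=
  ∀ u ∈ O, ∀ v ∈ O, (∃ z, dt u v z ≠ 0) → κ u = κ v → ∃ y ∈ Y, InC u v y

/-- The triangle lemma. -/
theorem tri {Y O : Finset V} (hY : Red Y) (hO : O ⊆ Y) {κ : V → Bool} (hκ : Col Y O κ) :
    ∀ n : ℕ, ∀ p ∈ O, ∀ q ∈ O, ∀ r ∈ O, dt p q r ≠ 0 → cnt O p q r = n →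
      1 ≤ FF Y O p q r := by
  intro n
  induction n using Nat.strong_induction_on with
  | _ n ih =>
  intro p hp q hq r hr hD hn
  by_cases hA : ∃ x ∈ O, w p q r x ≠ 0
  · obtain ⟨x, hx, hwx⟩ := hA
    rcases W_ne_zero hwx with ⟨h1, h2, h3⟩ | ⟨h1, h2, h3⟩ | ⟨h1, h2, h3⟩ | ⟨h1, h2, h3⟩
    · obtain ⟨c1, c2, c3, hF⟩ := step3 hY hO hx h1 h2 h3
      rw [hn] at c1 c2 c3
      have f1 := ih _ c1 x hx q hq r hr (pos_ne h1).2 rfl
      have f2 := ih _ c2 p hp x hx r hr (pos_ne h2).2 rfl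
      have f3 := ih _ c3 p hp q hq x hx (pos_ne h3).2 rfl
      omega
    · have h1' : dt x q r = 0 := (mul_eq_zero.mp h1).resolve_left hD
      obtain ⟨c2, c3, hF⟩ := step2 hY hO hx h1' h2 h3
      rw [hn] at c2 c3
      have f2 := ih _ c2 p hp x hx r hr (pos_ne h2).2 rfl
      have f3 := ih _ c3 p hp q hq x hx (pos_ne h3).2 rfl
      omega
    · have h2' : dt p x r = 0 := (mul_eq_zero.mp h2).resolve_left hD
      have g1 : dt x r p = 0 := by rw [← h2']; unfold dt; ring
      have g2 : 0 < dt q r p * dt q x p := by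
        have : dt q r p * dt q x p = dt p q r * dt p q x := by unfold dt; ring
        rw [this]; exact h3
      have g3 : 0 < dt q r p * dt q r x := by
        have : dt q r p * dt q r x = dt p q r * dt x q r := by unfold dt; ring
        rw [this]; exact h1
      obtain ⟨c2, c3, hF⟩ := step2 hY hO hx g1 g2 g3
      rw [cnt_rot O p q r, hn] at c2 c3
      rw [FF_rot Y O p q r] at hF
      have f2 := ih _ c2 q hq x hx p hp (pos_ne g2).2 rfl
      have f3 := ih _ c3 q hq r hr x hx (pos_ne g3).2 rfl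
      omega
    · have h3' : dt p q x = 0 := (mul_eq_zero.mp h3).resolve_left hD
      have g1 : dt x p q = 0 := by rw [← h3']; unfold dt; ring
      have g2 : 0 < dt r p q * dt r x q := by
        have : dt r p q * dt r x q = dt p q r * dt x q r := by unfold dt; ring
        rw [this]; exact h1
      have g3 : 0 < dt r p q * dt r p x := by
        have : dt r p q * dt r p x = dt p q r * dt p x r := by unfold dt; ring
        rw [this]; exact h2
      obtain ⟨c2, c3, hF⟩ := step2 hY hO hx g1 g2 g3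
      rw [cnt_rot O q r p, cnt_rot O p q r, hn] at c2 c3
      rw [FF_rot Y O q r p, FF_rot Y O p q r] at hF
      have f2 := ih _ c2 r hr x hx q hq (pos_ne g2).2 rfl
      have f3 := ih _ c3 r hr p hp x hx (pos_ne g3).2 rfl
      omega
  · push Not at hA
    have key : ∀ y ∈ Y, w p q r y = 1 → 1 ≤ FF Y O p q r := by
      intro y hy hwy
      have hyO : y ∉ O := fun h => by
        rw [hA y h] at hwy
        exact absurd hwy (by norm_num)
      have hnn : ∀ z ∈ Y, 0 ≤ (if z ∈ O then (-1 : ℤ) else 1) * w p q r z := by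
        intro z _
        by_cases hz : z ∈ O
        · rw [if_pos hz, hA z hz, mul_zero]
        · rw [if_neg hz, one_mul]
          exact w_nonneg _ _ _ _
      unfold FF
      have h1 := Finset.single_le_sum hnn hy
      rw [if_neg hyO, hwy, one_mul] at h1
      exact h1
    have hpair : κ q = κ r ∨ κ r = κ p ∨ κ p = κ q := by
      rcases κ p <;> rcases κ q <;> rcases κ r <;> simp
    rcases hpair with h | h | h
    · obtain ⟨y, hy, hyc⟩ := hκ q hq r hr ⟨p, by rw [dt_rot]; exact hD⟩ h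
      exact key y hy (InC_w hD hyc)
    · have hD' : dt r p q ≠ 0 := by
        rw [dt_rot q r p, dt_rot p q r]
        exact hD
      obtain ⟨y, hy, hyc⟩ := hκ r hr p hp ⟨q, hD'⟩ h
      refine key y hy ?_
      rw [← w_rot]
      exact InC_w (by rw [dt_rot]; exact hD) hyc
    · obtain ⟨y, hy, hyc⟩ := hκ p hp q hq ⟨r, hD⟩ h
      refine key y hy ?_
      rw [← w_rot, ← w_rot]
      exact InC_w (by rw [dt_rot, dt_rot]; exact hD) hyc

theorem dt_neg1 (p q r : V) : dt (-p) q r = - dt p q r := by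
  unfold dt
  simp only [Prod.fst_neg, Prod.snd_neg]
  ring

theorem dt_neg2 (p q r : V) : dt p (-q) r = - dt p q r := by
  unfold dt
  simp only [Prod.fst_neg, Prod.snd_neg]
  ring

theorem dt_neg3 (p q r : V) : dt p q (-r) = - dt p q r := by
  unfold dt
  simp only [Prod.fst_neg, Prod.snd_neg]
  ring

/-- The eight octants at a basis of points of `O`. -/
theorem oct_sum (a b c y : V) :
    w a b c y + w (-a) b c y + w a (-b) c y + w a b (-c) y + w (-a) (-b) c y + w (-a) b (-c) y
      + w a (-b) (-c) y + w (-a) (-b) (-c) y =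
    if (dt a b c * dt y b c = 0 ∧ dt a b c * dt a y c = 0) ∨
      (dt a b c * dt y b c = 0 ∧ dt a b c * dt a b y = 0) ∨
      (dt a b c * dt a y c = 0 ∧ dt a b c * dt a b y = 0) then 0 else 2 := by
  rw [← W_oct]
  unfold w
  simp only [dt_neg1, dt_neg2, dt_neg3, neg_neg, neg_mul, mul_neg]

/-- The main inequality. -/
theorem oct {Y O : Finset V} (hY : Red Y) (hO : O ⊆ Y) {κ : V → Bool} (hκ : Col Y O κ)
    (hsO : ∀ y ∈ O, -y ∈ O) (h0 : (0 : V) ∉ O) {a b c : V} (ha : a ∈ O) (hb : b ∈ O) (hc : c ∈ O)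
    (hD : dt a b c ≠ 0) : 2 * O.card ≤ Y.card + 2 := by
  classical
  have T : ∀ p ∈ O, ∀ q ∈ O, ∀ r ∈ O, dt p q r ≠ 0 → 1 ≤ FF Y O p q r :=
    fun p hp q hq r hr h => tri hY hO hκ _ p hp q hq r hr h rfl
  have t1 := T a ha b hb c hc hD
  have t2 := T (-a) (hsO a ha) b hb c hc (by rw [dt_neg1]; exact neg_ne_zero.mpr hD)
  have t3 := T a ha (-b) (hsO b hb) c hc (by rw [dt_neg2]; exact neg_ne_zero.mpr hD)
  have t4 := T a ha b hb (-c) (hsO c hc) (by rw [dt_neg3]; exact neg_ne_zero.mpr hD)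
  have t5 := T (-a) (hsO a ha) (-b) (hsO b hb) c hc
    (by rw [dt_neg1, dt_neg2, neg_neg]; exact hD)
  have t6 := T (-a) (hsO a ha) b hb (-c) (hsO c hc)
    (by rw [dt_neg1, dt_neg3, neg_neg]; exact hD)
  have t7 := T a ha (-b) (hsO b hb) (-c) (hsO c hc)
    (by rw [dt_neg2, dt_neg3, neg_neg]; exact hD)
  have t8 := T (-a) (hsO a ha) (-b) (hsO b hb) (-c) (hsO c hc)
    (by rw [dt_neg1, dt_neg2, dt_neg3, neg_neg]; exact neg_ne_zero.mpr hD)
  set S : Finset V := {a, -a, b, -b, c, -c} with hS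
  have hSO : S ⊆ O := by
    intro y hy
    rw [hS] at hy
    simp only [Finset.mem_insert, Finset.mem_singleton] at hy
    rcases hy with rfl | rfl | rfl | rfl | rfl | rfl
    · exact ha
    · exact hsO _ ha
    · exact hb
    · exact hsO _ hb
    · exact hc
    · exact hsO _ hc
  have hScard : S.card ≤ 6 := Finset.card_le_six
  have hmul : ∀ y ∈ O, ∀ v ∈ O, ∀ t : ℝ, y = t • v → y = v ∨ y = -v := by
    intro y hy v hv t hyt
    rcases lt_trichotomy t 0 with ht | ht | ht
    · right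
      refine hY (-v) (hO (hsO v hv)) y (hO hy) (-t) (by linarith) ?_
      rw [hyt, neg_smul, smul_neg, neg_neg]
    · exfalso
      rw [ht, zero_smul] at hyt
      rw [hyt] at hy
      exact h0 hy
    · left
      exact hY v (hO hv) y (hO hy) t ht hyt
  have hsum : FF Y O a b c + FF Y O (-a) b c + FF Y O a (-b) c + FF Y O a b (-c)
      + FF Y O (-a) (-b) c + FF Y O (-a) b (-c) + FF Y O a (-b) (-c) + FF Y O (-a) (-b) (-c)
      ≤ ∑ y ∈ Y, (2 - 4 * (if y ∈ O then (1 : ℤ) else 0) + 2 * (if y ∈ S then (1 : ℤ) else 0)) := by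
    unfold FF
    simp only [← Finset.sum_add_distrib, ← mul_add]
    refine Finset.sum_le_sum fun y hy => ?_
    rw [oct_sum]
    by_cases hyO : y ∈ O
    · by_cases hyS : y ∈ S
      · rw [if_pos hyO, if_pos hyO, if_pos hyS]
        split_ifs <;> norm_num
      · rw [if_pos hyO, if_pos hyO, if_neg hyS]
        rw [if_neg]
        · norm_num
        · intro hz
          simp only [mul_eq_zero, hD, false_or] at hz
          have hcr := cramer a b c y
          apply hyS
          rw [hS]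
          simp only [Finset.mem_insert, Finset.mem_singleton]
          have hinv : ∀ s : ℝ, ∀ v : V, dt a b c • y = s • v → y = (s / dt a b c) • v := by
            intro s v h
            rw [div_eq_inv_mul, mul_smul, ← h, smul_smul, inv_mul_cancel₀ hD, one_smul]
          rcases hz with ⟨h1, h2⟩ | ⟨h1, h2⟩ | ⟨h1, h2⟩
          · rw [h1, h2, zero_smul, zero_smul, zero_add, zero_add] at hcr
            rcases hmul y hyO c hc _ (hinv _ _ hcr) with h | h <;> simp [h]
          · rw [h1, h2, zero_smul, zero_smul, zero_add, add_zero] at hcr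
            rcases hmul y hyO b hb _ (hinv _ _ hcr) with h | h <;> simp [h]
          · rw [h1, h2, zero_smul, zero_smul, add_zero, add_zero] at hcr
            rcases hmul y hyO a ha _ (hinv _ _ hcr) with h | h <;> simp [h]
    · have hyS : y ∉ S := fun h => hyO (hSO h)
      rw [if_neg hyO, if_neg hyO, if_neg hyS]
      split_ifs <;> norm_num
  have hval : ∑ y ∈ Y, (2 - 4 * (if y ∈ O then (1 : ℤ) else 0) + 2 * (if y ∈ S then (1 : ℤ) else 0))
      = 2 * Y.card - 4 * O.card + 2 * S.card := by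
    rw [Finset.sum_add_distrib, Finset.sum_sub_distrib, ← Finset.mul_sum, ← Finset.mul_sum,
      Finset.sum_const, Finset.sum_ite_mem, Finset.sum_ite_mem,
      Finset.inter_eq_right.mpr hO, Finset.inter_eq_right.mpr (hSO.trans hO)]
    simp only [Finset.sum_const, nsmul_eq_mul, mul_one]
    ring
  rw [hval] at hsum
  omega

end Pool.Agent.OMI
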