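import Mathlib

/-!
# Weights of a vector in a cone on three vectors
-/

set_option autoImplicit false

namespace Pool.Agent.OMI

/-- Vectors of the three dimensional space. -/
abbrev V := ℝ × ℝ × ℝ

/-- The determinant. -/
def dt (p q r : V) : ℝ :=
  p.1 * (q.2.1 * r.2.2 - q.2.2 * r.2.1) - p.2.1 * (q.1 * r.2.2 - q.2.2 * r.1)
    + p.2.2 * (q.1 * r.2.1 - q.2.1 * r.1)

/-- Weight of a sign vector: `2` inside the triangle, `1` inside an edge, otherwise `0`. -/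
def Ws (a b c : SignType) : ℤ :=
  if a = 1 ∧ b = 1 ∧ c = 1 then 2
  else if (a = 0 ∧ b = 1 ∧ c = 1) ∨ (a = 1 ∧ b = 0 ∧ c = 1) ∨ (a = 1 ∧ b = 1 ∧ c = 0) then 1
  else 0

/-- Weight of a coordinate vector. -/
noncomputable def W (a b c : ℝ) : ℤ := Ws (SignType.sign a) (SignType.sign b) (SignType.sign c)

theorem sgn_cases (x : ℝ) : (0 < x ∧ SignType.sign x = 1) ∨ (x = 0 ∧ SignType.sign x = 0) ∨
    (x < 0 ∧ SignType.sign x = -1) := by
  rcases lt_trichotomy x 0 with h | h | h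
  · exact Or.inr (Or.inr ⟨h, sign_neg h⟩)
  · exact Or.inr (Or.inl ⟨h, by rw [h, sign_zero]⟩)
  · exact Or.inl ⟨h, sign_pos h⟩

theorem W_nonneg (a b c : ℝ) : 0 ≤ W a b c := by
  unfold W Ws
  split_ifs <;> norm_num

theorem W_rot (a b c : ℝ) : W b c a = W a b c := by
  unfold W
  generalize SignType.sign a = x
  generalize SignType.sign b = y
  generalize SignType.sign c = z
  revert x y z
  decide

theorem sgn_mul_pos {s : ℝ} (hs : 0 < s) (a : ℝ) :
    SignType.sign (s * a) = SignType.sign a := by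
  rw [sign_mul, sign_pos hs, one_mul]

theorem W_scale {s t u : ℝ} (hs : 0 < s) (ht : 0 < t) (hu : 0 < u) (a b c : ℝ) :
    W (s * a) (t * b) (u * c) = W a b c := by
  unfold W
  rw [sgn_mul_pos hs, sgn_mul_pos ht, sgn_mul_pos hu]

theorem sgn_sub_swap (x y : ℝ) : SignType.sign (x - y) = - SignType.sign (y - x) := by
  rw [← Left.sign_neg, neg_sub]

/-- Splitting a triangle at an interior point. -/
theorem W_split (x y z : ℝ) (h : ¬ (0 < x ∧ x = y ∧ x = z)) :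
    W x y z = W x (y - x) (z - x) + W (x - y) y (z - y) + W (x - z) (y - z) z := by
  unfold W
  rw [sgn_sub_swap x y, sgn_sub_swap x z, sgn_sub_swap y z]
  rcases sgn_cases (y - x) with ⟨h1, e1⟩ | ⟨h1, e1⟩ | ⟨h1, e1⟩ <;>
  rcases sgn_cases (z - x) with ⟨h2, e2⟩ | ⟨h2, e2⟩ | ⟨h2, e2⟩ <;>
  rcases sgn_cases (z - y) with ⟨h3, e3⟩ | ⟨h3, e3⟩ | ⟨h3, e3⟩ <;>
  (try (exfalso; linarith)) <;>
  rcases sgn_cases x with ⟨h4, e4⟩ | ⟨h4, e4⟩ | ⟨h4, e4⟩ <;>
  rcases sgn_cases y with ⟨h5, e5⟩ | ⟨h5, e5⟩ | ⟨h5, e5⟩ <;>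
  (try (exfalso; linarith)) <;>
  rcases sgn_cases z with ⟨h6, e6⟩ | ⟨h6, e6⟩ | ⟨h6, e6⟩ <;>
  (try (exfalso; linarith)) <;>
  (try (exfalso; exact h ⟨h4, by linarith, by linarith⟩)) <;>
  (rw [e1, e2, e3, e4, e5, e6]; decide)

/-- Splitting a triangle at a point of an edge. -/
theorem W_split2 (a y z : ℝ) (h : ¬ (a = 0 ∧ 0 < y ∧ y = z)) :
    W a y z = W a y (z - y) + W a (y - z) z := by
  unfold W
  rw [sgn_sub_swap y z]
  rcases sgn_cases (z - y) with ⟨h3, e3⟩ | ⟨h3, e3⟩ | ⟨h3, e3⟩ <;>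
  rcases sgn_cases y with ⟨h5, e5⟩ | ⟨h5, e5⟩ | ⟨h5, e5⟩ <;>
  rcases sgn_cases z with ⟨h6, e6⟩ | ⟨h6, e6⟩ | ⟨h6, e6⟩ <;>
  (try (exfalso; linarith)) <;>
  rcases sgn_cases a with ⟨h4, e4⟩ | ⟨h4, e4⟩ | ⟨h4, e4⟩ <;>
  (try (exfalso; exact h ⟨h4, h5, by linarith⟩)) <;>
  (rw [e3, e4, e5, e6]; decide)

/-- The eight octants. -/
theorem W_oct (x y z : ℝ) :
    W x y z + W (-x) y z + W x (-y) z + W x y (-z) + W (-x) (-y) z + W (-x) y (-z)
      + W x (-y) (-z) + W (-x) (-y) (-z) =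
    if (x = 0 ∧ y = 0) ∨ (x = 0 ∧ z = 0) ∨ (y = 0 ∧ z = 0) then 0 else 2 := by
  unfold W
  rw [Left.sign_neg, Left.sign_neg, Left.sign_neg]
  rcases sgn_cases x with ⟨h4, e4⟩ | ⟨h4, e4⟩ | ⟨h4, e4⟩ <;>
  rcases sgn_cases y with ⟨h5, e5⟩ | ⟨h5, e5⟩ | ⟨h5, e5⟩ <;>
  rcases sgn_cases z with ⟨h6, e6⟩ | ⟨h6, e6⟩ | ⟨h6, e6⟩ <;>
  (rw [e4, e5, e6]; (try have h4' := h4.ne); (try have h5' := h5.ne); (try have h6' := h6.ne); 
   (try have h4'' := h4.ne'); (try have h5'' := h5.ne'); (try have h6'' := h6.ne'); 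
   simp only [*, true_and, and_true, false_and, and_false, or_false, false_or, or_true, true_or, if_true, if_false, and_self, or_self]; decide)

/-- Cramer. -/
theorem cramer (p q r y : V) :
    dt p q r • y = dt y q r • p + dt p y r • q + dt p q y • r := by
  unfold dt
  refine Prod.ext ?_ (Prod.ext ?_ ?_)
  · simp only [Prod.smul_fst, Prod.fst_add, smul_eq_mul]
    ring
  · simp only [Prod.smul_fst, Prod.smul_snd, Prod.fst_add, Prod.snd_add, smul_eq_mul]
    ring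
  · simp only [Prod.smul_snd, Prod.snd_add, smul_eq_mul]
    ring

theorem dt_rot (p q r : V) : dt q r p = dt p q r := by
  unfold dt
  ring

theorem plu1 (p q r x y : V) :
    dt x y r * dt p q r = dt x q r * dt p y r - dt p x r * dt y q r := by
  unfold dt
  ring

theorem plu2 (p q r x y : V) :
    dt x q y * dt p q r = dt x q r * dt p q y - dt p q x * dt y q r := by
  unfold dt
  ring

theorem plu3 (p q r x y : V) :
    dt p x y * dt p q r = dt p x r * dt p q y - dt p q x * dt p y r := by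
  unfold dt
  ring

/-- The weight of `y` in the cone on `p, q, r`. -/
noncomputable def w (p q r y : V) : ℤ :=
  W (dt p q r * dt y q r) (dt p q r * dt p y r) (dt p q r * dt p q y)

theorem w_nonneg (p q r y : V) : 0 ≤ w p q r y := W_nonneg _ _ _

theorem w_rot (p q r y : V) : w q r p y = w p q r y := by
  unfold w
  rw [dt_rot p q r]
  have e1 : dt y r p = dt p y r := by unfold dt; ring
  have e2 : dt q y p = dt p q y := by unfold dt; ring
  have e3 : dt q r y = dt y q r := by unfold dt; ring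
  rw [e1, e2, e3]
  exact W_rot _ _ _

end Pool.Agent.OMI
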